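import Mathlib
import Pool.Agent.W812.RB.Stm

set_option autoImplicit false

namespace Pool.Agent.W356.RB

open Finset
open Pool.Agent.W812.RB

theorem twoInj_zmod (M : ℕ) (hM : Odd M) : TwoInj (ZMod M) := by
  intro x z h
  have hu : IsUnit ((2 : ℕ) : ZMod M) := by
    rw [ZMod.isUnit_iff_coprime]
    exact (Nat.coprime_two_left).mpr hM
  have h2 : ((2 : ℕ) : ZMod M) * x = ((2 : ℕ) : ZMod M) * z := by
    push_cast
    linear_combination h
  exact hu.mul_left_cancel h2

theorem prodPot (M M1 M2 : ℕ) (hM : M = M1 * M2) (hc : M1.Coprime M2) (h1 : Odd M1) (h2 : Odd M2)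
    (S1 : Finset (ZMod M1)) (S2 : Finset (ZMod M2)) (B1 B2 : ℕ) (P1 : Pot S1 B1) (P2 : Pot S2 B2) :
    ∃ S : Finset (ZMod M), Pot S (B1 + B2) ∧ S.card = S1.card * S2.card := by
  subst hM
  set e := ZMod.chineseRemainder hc
  obtain ⟨g1, g1B, hg1⟩ := P1
  obtain ⟨g2, g2B, hg2⟩ := P2
  refine ⟨(S1 ×ˢ S2).map e.symm.toEquiv.toEmbedding, ?_, by rw [card_map, card_product]⟩
  have hmem : ∀ w, w ∈ (S1 ×ˢ S2).map e.symm.toEquiv.toEmbedding → (e w).1 ∈ S1 ∧ (e w).2 ∈ S2 := by
    intro w hw
    rw [mem_map] at hw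
    obtain ⟨q, hq, rfl⟩ := hw
    rw [mem_product] at hq
    have : e (e.symm.toEquiv.toEmbedding q) = q := e.apply_symm_apply q
    rw [this]
    exact hq
  refine ⟨fun w => g1 (e w).1 + g2 (e w).2, ?_, ?_⟩
  · intro w hw
    exact Nat.add_le_add (g1B _ (hmem w hw).1) (g2B _ (hmem w hw).2)
  · intro x hx z hz y hy h hne
    have hx' := hmem x hx
    have hz' := hmem z hz
    have hy' := hmem y hy
    have he : e x + e z = e y + e y := by rw [← map_add, h, map_add]
    have he1 : (e x).1 + (e z).1 = (e y).1 + (e y).1 := congrArg Prod.fst he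
    have he2 : (e x).2 + (e z).2 = (e y).2 + (e y).2 := congrArg Prod.snd he
    have hne' : e x ≠ e z := fun h' => hne (e.injective h')
    show 2 * (g1 (e y).1 + g2 (e y).2) < (g1 (e x).1 + g2 (e x).2) + (g1 (e z).1 + g2 (e z).2)
    have c1 : (e x).1 ≠ (e z).1 → 2 * g1 (e y).1 < g1 (e x).1 + g1 (e z).1 :=
      fun h' => hg1 _ hx'.1 _ hz'.1 _ hy'.1 he1 h'
    have c2 : (e x).2 ≠ (e z).2 → 2 * g2 (e y).2 < g2 (e x).2 + g2 (e z).2 :=
      fun h' => hg2 _ hx'.2 _ hz'.2 _ hy'.2 he2 h'
    have d1 : (e x).1 = (e z).1 → 2 * g1 (e y).1 = g1 (e x).1 + g1 (e z).1 := by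
      intro h'
      have : (e y).1 = (e x).1 := twoInj_zmod M1 h1 _ _ (by rw [← he1, ← h'])
      rw [this, ← h']
      ring
    have d2 : (e x).2 = (e z).2 → 2 * g2 (e y).2 = g2 (e x).2 + g2 (e z).2 := by
      intro h'
      have : (e y).2 = (e x).2 := twoInj_zmod M2 h2 _ _ (by rw [← he2, ← h'])
      rw [this, ← h']
      ring
    by_cases a1 : (e x).1 = (e z).1
    · by_cases a2 : (e x).2 = (e z).2
      · exact absurd (Prod.ext a1 a2) hne'
      · have := d1 a1
        have := c2 a2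
        omega
    · by_cases a2 : (e x).2 = (e z).2
      · have := c1 a1
        have := d2 a2
        omega
      · have := c1 a1
        have := c2 a2
        omega

theorem prod : ProdStm := by
  intro c hc ⟨d, C, p₀, hd, hB⟩
  refine ⟨d, C, p₀, hd, ?_⟩
  intro m X f
  induction m with
  | zero =>
    intro _ _
    rw [mul_zero, range_zero, prod_empty]
    refine ⟨{0}, ⟨fun _ => 0, fun _ _ => Nat.zero_le _, ?_⟩, ?_⟩
    · intro x _ z _ y _ _ hne
      exact absurd (Subsingleton.elim x z) hne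
    · simp
  | succ m ih =>
    intro hf hcop
    obtain ⟨S1, P1, hS1⟩ := ih (fun i hi => hf i (by nlinarith)) (fun i hi j hj => hcop i (by nlinarith) j (by nlinarith))
    have hlt : ∀ i < d, d * m + i < d * (m + 1) := by
      intro i hi
      rw [mul_add, mul_one]
      omega
    obtain ⟨S2, P2, hS2⟩ := hB X (fun i => f (d * m + i)) (fun i hi => hf _ (hlt i hi))
      (fun i hi j hj hij => hcop _ (hlt i hi) _ (hlt j hj) (by omega))
    have hM : ∏ i ∈ range (d * (m + 1)), f i = (∏ i ∈ range (d * m), f i) * ∏ i ∈ range d, f (d * m + i) := by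
      rw [mul_add, mul_one, prod_range_add]
    have hc' : (∏ i ∈ range (d * m), f i).Coprime (∏ i ∈ range d, f (d * m + i)) := by
      apply Nat.Coprime.prod_left
      intro i hi
      apply Nat.Coprime.prod_right
      intro j hj
      rw [mem_range] at hi hj
      exact hcop i (by nlinarith) _ (hlt j hj) (by omega)
    have o1 : Odd (∏ i ∈ range (d * m), f i) := by
      apply Finset.prod_induction _ Odd (fun a b => Odd.mul) odd_one
      intro i hi
      rw [mem_range] at hi
      exact (hf i (by nlinarith)).1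
    have o2 : Odd (∏ i ∈ range d, f (d * m + i)) := by
      apply Finset.prod_induction _ Odd (fun a b => Odd.mul) odd_one
      intro i hi
      rw [mem_range] at hi
      exact (hf _ (hlt i hi)).1
    obtain ⟨S, P, hS⟩ := prodPot _ _ _ hM hc' o1 o2 S1 S2 _ _ P1 P2
    refine ⟨S, ?_, ?_⟩
    · have e : m * C * X ^ 2 + C * X ^ 2 = (m + 1) * C * X ^ 2 := by ring
      rwa [e] at P
    · rw [hS, hM]
      push_cast at hS1 hS2 ⊢
      have hc0 : 0 ≤ c := hc.le
      have e1 : c ^ (d * (m + 1)) * ((∏ i ∈ range (d * m), (f i : ℝ)) * ∏ i ∈ range d, (f (d * m + i) : ℝ)) =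
        (c ^ (d * m) * ∏ i ∈ range (d * m), (f i : ℝ)) * (c ^ d * ∏ i ∈ range d, (f (d * m + i) : ℝ)) := by
        rw [mul_add, mul_one, pow_add]
        ring
      rw [e1]
      exact mul_le_mul hS1 hS2 (by positivity) (by positivity)

end Pool.Agent.W356.RB
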