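import Mathlib
import Pool.Agent.W812.RB.Stm

set_option autoImplicit false

namespace Pool.Agent.W356.RB

open Finset
open Pool.Agent.W812.RB

theorem mem_glue {G : Type*} [AddCommGroup G] [Fintype G] [DecidableEq G] {p : ℕ} [NeZero p]
    {F : ℕ → Finset G} {s : ZMod p} {x : ZMod p × G} : x ∈ glue F s ↔ x.2 ∈ F ((x.1 + s).val) := by
  simp [glue]

theorem three_cases (p a b c : ℕ) (ha : a < p) (hb : b < p) (hc : c < p)
    (h : (a + b) % p = (c + c) % p) : a + b = 2 * c ∨ a + b = 2 * c + p ∨ a + b + p = 2 * c := by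
  rcases le_total (a + b) (c + c) with h1 | h1
  · have h3 : (c + c - (a + b)) % p = 0 := Nat.sub_mod_eq_zero_of_mod_eq h.symm
    obtain ⟨t, ht⟩ := Nat.dvd_of_mod_eq_zero h3
    have ht2 : t < 2 := by
      by_contra hge
      push Not at hge
      have : p * 2 ≤ p * t := Nat.mul_le_mul_left _ hge
      omega
    interval_cases t
    · left; omega
    · right; right; omega
  · have h3 : (a + b - (c + c)) % p = 0 := Nat.sub_mod_eq_zero_of_mod_eq h
    obtain ⟨t, ht⟩ := Nat.dvd_of_mod_eq_zero h3
    have ht2 : t < 2 := by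
      by_contra hge
      push Not at hge
      have : p * 2 ≤ p * t := Nat.mul_le_mul_left _ hge
      omega
    interval_cases t
    · left; omega
    · right; left; omega

theorem big (K L B a b c gx gz gy : ℕ) (hKL : 4 * B + 2 ≤ K * L ^ 2) (hy : gy ≤ B)
    (h : 4 * c ^ 2 + L ^ 2 ≤ 2 * (a ^ 2 + b ^ 2)) :
    2 * (K * c ^ 2 + gy) < (K * a ^ 2 + gx) + (K * b ^ 2 + gz) := by
  have h1 : K * (4 * c ^ 2 + L ^ 2) ≤ K * (2 * (a ^ 2 + b ^ 2)) := Nat.mul_le_mul_left _ h
  nlinarith

theorem glue_pot : GlueStm := by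
  intro G _ _ _ p _ ι F s lab Sl L B K h2 hF hP hgap hK hL hKL hwrap
  choose g hgB hg using hP
  refine ⟨fun x => K * ((x.1 + s).val) ^ 2 + g (lab ((x.1 + s).val)) x.2, ?_, ?_⟩
  · intro x hx
    rw [mem_glue] at hx
    have hlt : (x.1 + s).val < p := ZMod.val_lt _
    have h3 := hgB _ _ (hF _ hlt hx)
    have h4 : ((x.1 + s).val) ^ 2 ≤ p ^ 2 := Nat.pow_le_pow_left hlt.le 2
    have h5 : K * ((x.1 + s).val) ^ 2 ≤ K * p ^ 2 := Nat.mul_le_mul_left _ h4
    exact Nat.add_le_add h5 h3
  · intro x hx z hz y hy hxz hne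
    rw [mem_glue] at hx hz hy
    have hax : (x.1 + s).val < p := ZMod.val_lt _
    have hbz : (z.1 + s).val < p := ZMod.val_lt _
    have hcy : (y.1 + s).val < p := ZMod.val_lt _
    have e1 : x.1 + z.1 = y.1 + y.1 := congrArg Prod.fst hxz
    have e2 : x.2 + z.2 = y.2 + y.2 := congrArg Prod.snd hxz
    have hx0 : (x.1 + s) + (z.1 + s) = (y.1 + s) + (y.1 + s) := by
      linear_combination e1
    have hmod : ((x.1 + s).val + (z.1 + s).val) % p = ((y.1 + s).val + (y.1 + s).val) % p := by
      have h := congrArg ZMod.val hx0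
      rw [ZMod.val_add (x.1 + s) (z.1 + s), ZMod.val_add (y.1 + s) (y.1 + s)] at h
      exact h
    have hxzne : (x.1 + s).val = (z.1 + s).val → x.2 ≠ z.2 := by
      intro h h'
      apply hne
      have h3 : x.1 + s = z.1 + s := ZMod.val_injective p h
      exact Prod.ext (add_right_cancel h3) h'
    simp only
    generalize (x.1 + s).val = a at *
    generalize (z.1 + s).val = b at *
    generalize (y.1 + s).val = c at *
    have hyB := hgB _ _ (hF _ hcy hy)
    rcases three_cases p a b c hax hbz hcy hmod with h | h | h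
    · -- a + b = 2 c
      by_cases hlab : lab a = lab b ∧ lab a = lab c
      · obtain ⟨l1, l2⟩ := hlab
        have hxS : x.2 ∈ Sl (lab a) := hF _ hax hx
        have hzS : z.2 ∈ Sl (lab a) := by rw [l1]; exact hF _ hbz hz
        have hyS : y.2 ∈ Sl (lab a) := by rw [l2]; exact hF _ hcy hy
        rw [← l1, ← l2]
        have hsq : 2 * c ^ 2 ≤ a ^ 2 + b ^ 2 := by
          zify at h ⊢
          nlinarith [sq_nonneg ((a : ℤ) - b)]
        have hsqK : K * (2 * c ^ 2) ≤ K * (a ^ 2 + b ^ 2) := Nat.mul_le_mul_left _ hsq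
        by_cases hxz2 : x.2 = z.2
        · have hyx : x.2 = y.2 := by
            apply h2
            rw [← e2, ← hxz2]
          have hab : a ≠ b := fun hab => hxzne hab hxz2
          have hlt : 2 * c ^ 2 < a ^ 2 + b ^ 2 := by
            zify at h hab ⊢
            have h5 : (a : ℤ) - b ≠ 0 := sub_ne_zero.mpr hab
            have h6 : 0 < ((a : ℤ) - b) ^ 2 := by positivity
            nlinarith
          have hltK : K * (2 * c ^ 2) < K * (a ^ 2 + b ^ 2) :=
            Nat.mul_lt_mul_of_pos_left hlt (by omega)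
          rw [← hxz2, ← hyx]
          nlinarith
        · have h3 := hg (lab a) _ hxS _ hzS _ hyS e2 hxz2
          nlinarith
      · have hd : a + L ≤ b ∨ b + L ≤ a := by
          by_cases l1 : lab a = lab b
          · have l2 : lab a ≠ lab c := fun l2 => hlab ⟨l1, l2⟩
            rcases hgap a c hax hcy ⟨_, hx⟩ ⟨_, hy⟩ l2 with h' | h'
            · left; omega
            · right; omega
          · exact hgap a b hax hbz ⟨_, hx⟩ ⟨_, hz⟩ l1
        refine big K L B a b c _ _ _ hKL hyB ?_
        rcases hd with h' | h'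
        · zify at h h' ⊢
          nlinarith
        · zify at h h' ⊢
          nlinarith
    · refine big K L B a b c _ _ _ hKL hyB ?_
      zify at h hL ⊢
      nlinarith [sq_nonneg ((a : ℤ) - b), mul_nonneg (Int.natCast_nonneg c) (Int.natCast_nonneg p)]
    · exact absurd e2 (hwrap a b c hax hbz hcy h _ hx _ hz _ hy)

/-- the theorem under the required name -/
theorem glue : GlueStm := glue_pot

end Pool.Agent.W356.RB
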