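import Mathlib
import Pool.Agent.W812.RB.Stm

set_option autoImplicit false

namespace Pool.Agent.W356.RB

open Finset
open Pool.Agent.W812.RB

theorem half : HalfStm := by
  intro G _ _ _ S B h2
  have hinj : Function.Injective (fun x : G => x + x) := fun x z h => h2 x z h
  have hbij : Function.Bijective (fun x : G => x + x) := Finite.injective_iff_bijective.mp hinj
  have hsurj : ∀ w : G, ∃ x : G, x + x = w := hbij.2
  have hdc : (dbl S).card = S.card := card_image_of_injective S hinj
  have hhc : (Pool.Agent.W812.RB.half S).card = S.card := by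
    have h3 : dbl (Pool.Agent.W812.RB.half S) = S := by
      ext w
      unfold dbl Pool.Agent.W812.RB.half
      rw [mem_image]
      constructor
      · rintro ⟨x, hx, rfl⟩
        rw [mem_filter] at hx
        exact hx.2
      · intro hw
        obtain ⟨x, hx⟩ := hsurj w
        exact ⟨x, by rw [mem_filter]; exact ⟨mem_univ _, by rw [hx]; exact hw⟩, hx⟩
    have h4 : (dbl (Pool.Agent.W812.RB.half S)).card = (Pool.Agent.W812.RB.half S).card :=
      card_image_of_injective _ hinj
    rw [← h4, h3]
  refine ⟨hhc, hdc, ?_⟩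
  rintro ⟨g, hgB, hg⟩
  constructor
  · refine ⟨fun x => g (x + x), ?_, ?_⟩
    · intro x hx
      unfold Pool.Agent.W812.RB.half at hx
      rw [mem_filter] at hx
      exact hgB _ hx.2
    · intro x hx z hz y hy h hne
      unfold Pool.Agent.W812.RB.half at hx hz hy
      rw [mem_filter] at hx hz hy
      refine hg _ hx.2 _ hz.2 _ hy.2 ?_ ?_
      · calc x + x + (z + z) = (x + z) + (x + z) := by abel
          _ = y + y + (y + y) := by rw [h]
      · exact fun h' => hne (h2 _ _ h')
  · choose hf hhf using hsurj
    refine ⟨fun w => g (hf w), ?_, ?_⟩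
    · intro w hw
      unfold dbl at hw
      rw [mem_image] at hw
      obtain ⟨x, hx, rfl⟩ := hw
      have : hf (x + x) = x := h2 _ _ (hhf (x + x))
      show g (hf (x + x)) ≤ B
      rw [this]
      exact hgB x hx
    · intro x' hx z' hz y' hy h hne
      unfold dbl at hx hz hy
      rw [mem_image] at hx hz hy
      obtain ⟨x, hx, rfl⟩ := hx
      obtain ⟨z, hz, rfl⟩ := hz
      obtain ⟨y, hy, rfl⟩ := hy
      have e : ∀ x : G, hf (x + x) = x := fun x => h2 _ _ (hhf (x + x))
      show 2 * g (hf (y + y)) < g (hf (x + x)) + g (hf (z + z))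
      rw [e, e, e]
      refine hg x hx z hz y hy ?_ ?_
      · apply h2
        calc x + z + (x + z) = x + x + (z + z) := by abel
          _ = y + y + (y + y) := h
      · rintro rfl
        exact hne rfl

theorem cardGlue : CardGlueStm := by
  intro G _ _ _ p _ F s
  classical
  have hmaps : ∀ x ∈ Pool.Agent.W812.RB.glue F s, (x.1 + s).val ∈ range p := by
    intro x _
    rw [mem_range]; exact ZMod.val_lt _
  rw [card_eq_sum_card_fiberwise hmaps]
  refine sum_congr rfl fun u hu => ?_
  rw [mem_range] at hu
  refine card_bij (fun x _ => x.2) ?_ ?_ ?_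
  · intro x hx
    rw [mem_filter] at hx
    have := hx.1
    unfold Pool.Agent.W812.RB.glue at this
    rw [mem_filter] at this
    have h3 := this.2
    rwa [hx.2] at h3
  · intro x hx z hz hxz
    rw [mem_filter] at hx hz
    have : x.1 + s = z.1 + s := ZMod.val_injective p (by rw [hx.2, hz.2])
    exact Prod.ext (add_right_cancel this) hxz
  · intro c hc
    refine ⟨((u : ZMod p) - s, c), ?_, rfl⟩
    rw [mem_filter]
    have hval : (((u : ZMod p) - s) + s).val = u := by
      rw [sub_add_cancel, ZMod.val_natCast, Nat.mod_eq_of_lt hu]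
    refine ⟨?_, hval⟩
    unfold Pool.Agent.W812.RB.glue
    rw [mem_filter]
    refine ⟨mem_univ _, ?_⟩
    show c ∈ F ((((u : ZMod p) - s) + s).val)
    rw [hval]
    exact hc

end Pool.Agent.W356.RB
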